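import Pool.Agent.W2helper16.GL.Stm

/-!
# Project GL, piece RAT
-/

set_option autoImplicit false
set_option linter.unusedSectionVars false

open CategoryTheory Limits MonoidalCategory
open Pool.Agent.Y112.SR Pool.Agent.Y112.SC Pool.Agent.Y112.KD

namespace Pool.Agent.W2helper68.GL

universe u v w

section

variable {C : Type u} [Category.{v} C] [Preadditive C] [Linear ℚ C] [MonoidalCategory C]
  [MonoidalPreadditive C] [MonoidalLinear ℚ C] [SymmetricCategory C] [RightRigidCategory C]
  {K : Type w} [Field K] (R : SuperRealisation C K)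

lemma comb_comp (h2 : (2 : K) ≠ 0) (M : C) (a b c d : K) :
    (a • pe R M + b • po R M) ≫ (c • pe R M + d • po R M) =
      (a * c) • pe R M + (b * d) • po R M := by
  rw [Preadditive.comp_add, Preadditive.add_comp, Preadditive.add_comp]
  simp only [Linear.smul_comp, Linear.comp_smul, pe_pe R h2, po_po R h2, pe_po R, po_pe R,
    smul_zero, add_zero, zero_add, smul_smul]
  rw [mul_comm c a, mul_comm d b]

lemma par_comb (h2 : (2 : K) ≠ 0) (M : C) :
    R.par M = (1 : K) • pe R M + (-1 : K) • po R M := by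
  rw [one_smul, neg_smul, one_smul, ← sub_eq_add_neg, pe_sub_po R h2]

lemma trace_comb (M : C) (a b p q : K)
    (hp : LinearMap.trace K (R.H.obj M) (pe R M).hom = p)
    (hq : LinearMap.trace K (R.H.obj M) (po R M).hom = q) :
    LinearMap.trace K (R.H.obj M) (a • pe R M + b • po R M).hom = a * p + b * q := by
  rw [ModuleCat.hom_add, ModuleCat.hom_smul, ModuleCat.hom_smul, map_add, map_smul, map_smul,
    hp, hq, smul_eq_mul, smul_eq_mul]

end

theorem p_rat : Pool.Agent.W2helper16.GL.StmRAT.{u, v, w} := by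
  intro C _ _ _ _ _ _ _ _ K _ R hU M z α β htr hpe hpo hz hne
  have hK := R_charZero R
  have h2 : (2 : K) ≠ 0 := two_ne_zero
  obtain ⟨p, hp, hp'⟩ := exists_rk R _ (pe_pe R h2 M) hK
  obtain ⟨q, hq, hq'⟩ := exists_rk R _ (po_po R h2 M) hK
  have hp0 : (p : K) ≠ 0 := by
    intro h
    exact hpe (hp' (by exact_mod_cast h))
  have hq0 : (q : K) ≠ 0 := by
    intro h
    exact hpo (hq' (by exact_mod_cast h))
  have hpq : (p : K) + q ≠ 0 := by
    intro h
    have h1 : ((p + q : ℕ) : K) = 0 := by push_cast; exact h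
    have h3 : p + q = 0 := by exact_mod_cast h1
    exact hp0 (by exact_mod_cast (by omega : p = 0))
  -- the traces of the powers
  have key : ∀ (y : M ⟶ M) (a b : K), R.H.map y = a • pe R M + b • po R M →
      ((trq hU M y : ℚ) : K) = a * p - b * q := by
    intro y a b hy
    rw [real_tr R hU, hy, par_comb R h2, comb_comp R h2, trace_comb R M _ _ _ _ hp hq]
    ring
  have hz2 : R.H.map (z ≫ z) = (α * α) • pe R M + (β * β) • po R M := by
    rw [Functor.map_comp, hz, comb_comp R h2]
  have hz3 : R.H.map ((z ≫ z) ≫ z) = (α * α * α) • pe R M + (β * β * β) • po R M := by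
    rw [Functor.map_comp, hz2, hz, comb_comp R h2]
  have hz0 : R.H.map (𝟙 M) = (1 : K) • pe R M + (1 : K) • po R M := by
    rw [one_smul, one_smul, pe_add_po R h2, CategoryTheory.Functor.map_id]
  have t0 := key _ _ _ hz0
  have t1 := key _ _ _ hz
  have t2 := key _ _ _ hz2
  have t3 := key _ _ _ hz3
  set r0 : ℚ := trq hU M (𝟙 M)
  set r1 : ℚ := trq hU M z
  set r2 : ℚ := trq hU M (z ≫ z)
  set r3 : ℚ := trq hU M ((z ≫ z) ≫ z)
  have e1 : ((r0 * r2 - r1 * r1 : ℚ) : K) = -(p * q * (α - β) ^ 2) := by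
    push_cast
    rw [t0, t1, t2]
    ring
  have e2 : ((r0 * r3 - r1 * r2 : ℚ) : K) = -(p * q * (α - β) ^ 2) * (α + β) := by
    push_cast
    rw [t0, t1, t2, t3]
    ring
  have hd : α - β ≠ 0 := sub_ne_zero.mpr hne
  have e3 : -((p : K) * q * (α - β) ^ 2) ≠ 0 :=
    neg_ne_zero.mpr (mul_ne_zero (mul_ne_zero hp0 hq0) (pow_ne_zero 2 hd))
  have hs : (((r0 * r3 - r1 * r2) / (r0 * r2 - r1 * r1) : ℚ) : K) = α + β := by
    rw [Rat.cast_div, e1, e2, mul_div_cancel_left₀ _ e3]
  set s : ℚ := (r0 * r3 - r1 * r2) / (r0 * r2 - r1 * r1)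
  have ha : (((r1 + s * q) / (p + q) : ℚ) : K) = α := by
    rw [Rat.cast_div]
    push_cast
    rw [t1, hs, div_eq_iff hpq]
    ring
  set a : ℚ := (r1 + s * q) / (p + q)
  have hb : ((s - a : ℚ) : K) = β := by
    push_cast
    rw [hs, ha]
    ring
  rw [cplus_iff]
  refine ⟨(2 / (a - (s - a)) : ℚ) • (z - (s / 2 : ℚ) • 𝟙 M), ?_⟩
  rw [R_smul, Functor.map_sub, R_smul, CategoryTheory.Functor.map_id, hz]
  have h5 : ((2 / (a - (s - a)) : ℚ) : K) = 2 / (α - β) := by
    rw [Rat.cast_div, Rat.cast_sub, hb, ha]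
    norm_num
  have h6 : ((s / 2 : ℚ) : K) = (α + β) / 2 := by
    rw [Rat.cast_div, hs]
    norm_num
  rw [h5, h6, par_comb R h2, ← pe_add_po R h2 M]
  have h7 : α • pe R M + β • po R M - ((α + β) / 2) • (pe R M + po R M) =
      ((α - β) / 2) • pe R M + (-((α - β) / 2)) • po R M := by
    have e4 : α = (α + β) / 2 + (α - β) / 2 := by
      field_simp
      ring
    have e5 : β = (α + β) / 2 + -((α - β) / 2) := by
      field_simp
      ring
    rw [smul_add]
    conv_lhs =>
      rw [show α • pe R M = ((α + β) / 2 + (α - β) / 2) • pe R M from by rw [← e4],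
        show β • po R M = ((α + β) / 2 + -((α - β) / 2)) • po R M from by rw [← e5]]
    rw [add_smul, add_smul]
    abel
  rw [h7, smul_add, smul_smul, smul_smul]
  have h8 : 2 / (α - β) * ((α - β) / 2) = 1 := by
    field_simp
  have h9 : 2 / (α - β) * -((α - β) / 2) = -1 := by
    rw [mul_neg, h8]
  rw [h8, h9]

end Pool.Agent.W2helper68.GL
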